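import Pool.Agent.H159Z.TP.Main

namespace Pool.Agent.Results.MP_4a08ba_lc.ATreePropertyPoset

open Pool.Agent.H159Z.TP

universe u v w

/-- The tree property is poset definable: there is a (countable) poset `S` such that a complete
theory has TP if and only if it has `S`-SOP. -/
theorem result :
    ∃ (S : Type) (_ : PartialOrder S), Countable S ∧
      ∀ (L : FirstOrder.Language.{u, v}) (T : L.Theory), T.IsComplete →
        (HasTP.{u, v, w} T ↔ HasPosetSOP.{u, v, w} S T) :=
  ⟨Sig, inferInstance, inferInstance, fun _ T _ => hasTP_iff T⟩

end Pool.Agent.Results.MP_4a08ba_lc.ATreePropertyPoset
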